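import Mathlib

set_option autoImplicit false
open Classical

/-! Symmetric local lemma for functions on a finite set with the uniform measure. -/

namespace Pool.Agent.Helper635.LLL

variable {T C ι : Type} [Fintype T] [Fintype C]

/-- the event `P` is determined by the coordinates in `S` -/
def DependsOn (P : (T → C) → Prop) (S : Finset T) : Prop :=
  ∀ ω ω' : T → C, (∀ t ∈ S, ω t = ω' t) → (P ω → P ω')

/-- the event as a finite set -/
noncomputable def ev (P : (T → C) → Prop) : Finset (T → C) := Finset.univ.filter P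

lemma mem_ev {P : (T → C) → Prop} {ω : T → C} : ω ∈ ev P ↔ P ω := by
  rw [ev, Finset.mem_filter]
  exact ⟨fun h => h.2, fun h => ⟨Finset.mem_univ _, h⟩⟩

/-- number of outcomes in the event -/
noncomputable def cnt (P : (T → C) → Prop) : ℕ := (ev P).card

lemma cnt_mono {P Q : (T → C) → Prop} (h : ∀ ω, P ω → Q ω) : cnt P ≤ cnt Q := by
  refine Finset.card_le_card ?_
  intro ω hω
  rw [mem_ev] at hω ⊢
  exact h ω hω

/-- swap the coordinates outside `S` -/
noncomputable def swap (S : Finset T) : (T → C) × (T → C) ≃ (T → C) × (T → C) where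
  toFun w := (fun t => if t ∈ S then w.1 t else w.2 t, fun t => if t ∈ S then w.2 t else w.1 t)
  invFun w := (fun t => if t ∈ S then w.1 t else w.2 t, fun t => if t ∈ S then w.2 t else w.1 t)
  left_inv w := by
    refine Prod.ext ?_ ?_ <;> funext t <;> by_cases h : t ∈ S <;> simp [h]
  right_inv w := by
    refine Prod.ext ?_ ?_ <;> funext t <;> by_cases h : t ∈ S <;> simp [h]

lemma indep (P Q : (T → C) → Prop) (S : Finset T) (hP : DependsOn P S)
    (hQ : ∀ ω ω' : T → C, (∀ t, t ∉ S → ω t = ω' t) → (Q ω → Q ω')) :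
    cnt (fun ω => P ω ∧ Q ω) * Fintype.card (T → C) = cnt P * cnt Q := by
  have h1 : cnt (fun ω => P ω ∧ Q ω) * Fintype.card (T → C)
      = ((ev (fun ω : T → C => P ω ∧ Q ω)) ×ˢ
        (Finset.univ : Finset (T → C))).card := by
    rw [Finset.card_product, Finset.card_univ]; rfl
  have h2 : cnt P * cnt Q = ((ev P) ×ˢ (ev Q)).card := by
    rw [Finset.card_product]; rfl
  rw [h1, h2]
  refine Finset.card_equiv (swap S) ?_
  intro w
  simp only [Finset.mem_product, mem_ev, Finset.mem_univ, and_true, swap,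
    Equiv.coe_fn_mk]
  constructor
  · rintro ⟨hp, hq⟩
    exact ⟨hP w.1 _ (fun t ht => by simp [ht]) hp, hQ w.1 _ (fun t ht => by simp [ht]) hq⟩
  · rintro ⟨hp, hq⟩
    exact ⟨hP _ w.1 (fun t ht => by simp [ht]) hp, hQ _ w.1 (fun t ht => by simp [ht]) hq⟩

/-- `P` holds and all events indexed by `J` fail -/
noncomputable def G (B : ι → (T → C) → Prop) (J : Finset ι) : ℕ :=
  cnt (fun ω => ∀ j ∈ J, ¬ B j ω)

lemma key (I : Finset ι) (B : ι → (T → C) → Prop) (S : ι → Finset T)
    (hB : ∀ i ∈ I, DependsOn (B i) (S i)) (p : ℝ) (d : ℕ) (hp0 : 0 ≤ p)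
    (hp : ∀ i ∈ I, (cnt (B i) : ℝ) ≤ p * Fintype.card (T → C))
    (hd : ∀ i ∈ I, (I.filter (fun j => ¬ Disjoint (S i) (S j))).card ≤ d)
    (h4 : 4 * p * d ≤ 1) (hne : 0 < Fintype.card (T → C)) :
    ∀ (n : ℕ) (J : Finset ι), J.card = n → J ⊆ I → ∀ i ∈ I,
      (cnt (fun ω => B i ω ∧ ∀ j ∈ J, ¬ B j ω) : ℝ) ≤ 2 * p * (G B J : ℝ) := by
  intro n
  induction n using Nat.strong_induction_on with
  | _ n ih =>
    intro J hJn hJI i hi
    set J1 := J.filter (fun j => ¬ Disjoint (S i) (S j)) with hJ1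
    set J2 := J.filter (fun j => Disjoint (S i) (S j)) with hJ2
    have hJ2J : J2 ⊆ J := Finset.filter_subset _ _
    have hJ1J : J1 ⊆ J := Finset.filter_subset _ _
    -- numerator bound
    have hnum : (cnt (fun ω => B i ω ∧ ∀ j ∈ J, ¬ B j ω) : ℝ) ≤ p * (G B J2 : ℝ) := by
      have e1 : cnt (fun ω => B i ω ∧ ∀ j ∈ J, ¬ B j ω)
          ≤ cnt (fun ω => B i ω ∧ ∀ j ∈ J2, ¬ B j ω) :=
        cnt_mono (fun ω h => ⟨h.1, fun j hj => h.2 j (hJ2J hj)⟩)
      have e2 : cnt (fun ω => B i ω ∧ ∀ j ∈ J2, ¬ B j ω) * Fintype.card (T → C)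
          = cnt (B i) * G B J2 := by
        refine indep (B i) (fun ω => ∀ j ∈ J2, ¬ B j ω) (S i) (hB i hi) ?_
        intro ω ω' hω hall j hj hbad
        refine hall j hj (hB j (hJI (hJ2J hj)) ω' ω ?_ hbad)
        intro t ht
        have hdis : Disjoint (S i) (S j) := (Finset.mem_filter.mp hj).2
        exact (hω t (fun hti => (Finset.disjoint_left.mp hdis hti ht))).symm
      have hN : (0 : ℝ) < (Fintype.card (T → C) : ℝ) := by exact_mod_cast hne
      have e3 : (cnt (fun ω => B i ω ∧ ∀ j ∈ J2, ¬ B j ω) : ℝ) * (Fintype.card (T → C) : ℝ)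
          = (cnt (B i) : ℝ) * (G B J2 : ℝ) := by exact_mod_cast e2
      have e4 : (cnt (B i) : ℝ) * (G B J2 : ℝ)
          ≤ p * Fintype.card (T → C) * (G B J2 : ℝ) :=
        mul_le_mul_of_nonneg_right (hp i hi) (Nat.cast_nonneg _)
      have e5 : (cnt (fun ω => B i ω ∧ ∀ j ∈ J2, ¬ B j ω) : ℝ) ≤ p * (G B J2 : ℝ) := by
        refine le_of_mul_le_mul_right ?_ hN
        rw [e3]; linarith
      exact le_trans (by exact_mod_cast e1) e5
    by_cases hemp : J1 = ∅
    · have hJJ2 : J2 = J := by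
        refine Finset.Subset.antisymm hJ2J ?_
        intro j hj
        rw [hJ2, Finset.mem_filter]
        refine ⟨hj, ?_⟩
        by_contra hnd
        have : j ∈ J1 := by rw [hJ1, Finset.mem_filter]; exact ⟨hj, hnd⟩
        rw [hemp] at this
        exact absurd this (Finset.notMem_empty _)
      rw [hJJ2] at hnum
      have : 0 ≤ p * (G B J : ℝ) := mul_nonneg hp0 (Nat.cast_nonneg _)
      linarith
    · have hJ2card : J2.card < n := by
        rw [← hJn]
        refine Finset.card_lt_card ⟨hJ2J, ?_⟩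
        intro hsub
        obtain ⟨j, hj⟩ := Finset.nonempty_iff_ne_empty.mpr hemp
        have h1 := (Finset.mem_filter.mp hj).2
        have h2 := (Finset.mem_filter.mp (hsub (hJ1J hj))).2
        exact h1 h2
      -- denominator bound
      have hden : (G B J2 : ℝ) ≤ (G B J : ℝ) + ∑ j ∈ J1, 2 * p * (G B J2 : ℝ) := by
        have hcover : (ev (fun ω : T → C => ∀ j ∈ J2, ¬ B j ω)) ⊆
            (ev (fun ω : T → C => ∀ j ∈ J, ¬ B j ω)) ∪
            J1.biUnion (fun j => ev
              (fun ω : T → C => B j ω ∧ ∀ j' ∈ J2, ¬ B j' ω)) := by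
          intro ω hω
          rw [mem_ev] at hω
          rw [Finset.mem_union]
          by_cases hall : ∀ j ∈ J, ¬ B j ω
          · left
            rw [mem_ev]
            exact hall
          · right
            push Not at hall
            obtain ⟨j, hj, hbad⟩ := hall
            rw [Finset.mem_biUnion]
            refine ⟨j, ?_, ?_⟩
            · rw [hJ1, Finset.mem_filter]
              refine ⟨hj, fun hdis => ?_⟩
              exact hω j (by rw [hJ2, Finset.mem_filter]; exact ⟨hj, hdis⟩) hbad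
            · rw [mem_ev]
              exact ⟨hbad, hω⟩
        have h1 := (Finset.card_le_card hcover).trans (Finset.card_union_le _ _)
        have h2 := h1.trans (Nat.add_le_add_left Finset.card_biUnion_le _)
        have h3 : (G B J2 : ℝ) ≤ (G B J : ℝ) +
            ∑ j ∈ J1, (cnt (fun ω => B j ω ∧ ∀ j' ∈ J2, ¬ B j' ω) : ℝ) := by
          have : ((G B J2 : ℕ) : ℝ) ≤ ((G B J + ∑ j ∈ J1,
              cnt (fun ω => B j ω ∧ ∀ j' ∈ J2, ¬ B j' ω) : ℕ) : ℝ) := by
            exact_mod_cast h2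
          rw [Nat.cast_add, Nat.cast_sum] at this
          exact this
        refine h3.trans (add_le_add le_rfl (Finset.sum_le_sum (fun j hj => ?_)))
        exact ih J2.card hJ2card J2 rfl (hJ2J.trans hJI) j (hJI (hJ1J hj))
      rw [Finset.sum_const, nsmul_eq_mul] at hden
      have hJ1d : (J1.card : ℝ) ≤ d := by
        have : J1.card ≤ d := by
          refine le_trans (Finset.card_le_card ?_) (hd i hi)
          intro j hj
          rw [Finset.mem_filter]
          exact ⟨hJI (hJ1J hj), (Finset.mem_filter.mp hj).2⟩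
        exact_mod_cast this
      have hG2 : (0 : ℝ) ≤ (G B J2 : ℝ) := Nat.cast_nonneg _
      have h6 : (J1.card : ℝ) * (2 * p * (G B J2 : ℝ)) ≤ (1 / 2) * (G B J2 : ℝ) := by
        have : (J1.card : ℝ) * (2 * p) ≤ 1 / 2 := by
          have : (J1.card : ℝ) * (2 * p) ≤ d * (2 * p) :=
            mul_le_mul_of_nonneg_right hJ1d (by linarith)
          linarith
        calc (J1.card : ℝ) * (2 * p * (G B J2 : ℝ)) = ((J1.card : ℝ) * (2 * p)) * (G B J2 : ℝ) := by
              ring
          _ ≤ (1 / 2) * (G B J2 : ℝ) := mul_le_mul_of_nonneg_right this hG2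
      have h7 : (G B J2 : ℝ) ≤ 2 * (G B J : ℝ) := by linarith
      calc (cnt (fun ω => B i ω ∧ ∀ j ∈ J, ¬ B j ω) : ℝ) ≤ p * (G B J2 : ℝ) := hnum
        _ ≤ p * (2 * (G B J : ℝ)) := mul_le_mul_of_nonneg_left h7 hp0
        _ = 2 * p * (G B J : ℝ) := by ring

/-- Symmetric Lovász local lemma (uniform product measure). -/
theorem lll (I : Finset ι) (B : ι → (T → C) → Prop) (S : ι → Finset T)
    (hB : ∀ i ∈ I, DependsOn (B i) (S i)) (p : ℝ) (d : ℕ) (hp0 : 0 ≤ p)
    (hp : ∀ i ∈ I, (cnt (B i) : ℝ) ≤ p * Fintype.card (T → C))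
    (hd : ∀ i ∈ I, (I.filter (fun j => ¬ Disjoint (S i) (S j))).card ≤ d)
    (h4 : 4 * p * d ≤ 1) (hd1 : 1 ≤ d) (hne : 0 < Fintype.card (T → C)) :
    ∃ ω : T → C, ∀ i ∈ I, ¬ B i ω := by
  have hp4 : 4 * p ≤ 1 := by
    have : (1 : ℝ) ≤ d := by exact_mod_cast hd1
    nlinarith
  have hpos : ∀ J : Finset ι, J ⊆ I → 0 < G B J := by
    intro J
    induction J using Finset.induction_on with
    | empty =>
      intro _
      have : G B (∅ : Finset ι) = Fintype.card (T → C) := by
        have h0 : ev (fun ω : T → C => ∀ j ∈ (∅ : Finset ι), ¬ B j ω) = Finset.univ := by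
          ext ω
          rw [mem_ev]
          simp
        rw [G, cnt, h0, Finset.card_univ]
      rw [this]; exact hne
    | insert i J hiJ ih =>
      intro hsub
      have hJ := ih ((Finset.subset_insert i J).trans hsub)
      have hi : i ∈ I := hsub (Finset.mem_insert_self i J)
      have hk := key I B S hB p d hp0 hp hd h4 hne J.card J rfl
        ((Finset.subset_insert i J).trans hsub) i hi
      have hsplit : G B J ≤ G B (insert i J) + cnt (fun ω => B i ω ∧ ∀ j ∈ J, ¬ B j ω) := by
        refine le_trans (Finset.card_le_card ?_) (Finset.card_union_le _ _)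
        intro ω hω
        rw [mem_ev] at hω
        rw [Finset.mem_union, mem_ev, mem_ev]
        by_cases hb : B i ω
        · right; exact ⟨hb, hω⟩
        · left
          intro j hj
          rcases Finset.mem_insert.mp hj with rfl | h
          · exact hb
          · exact hω j h
      have hsplit' : (G B J : ℝ) ≤ (G B (insert i J) : ℝ) +
          (cnt (fun ω => B i ω ∧ ∀ j ∈ J, ¬ B j ω) : ℝ) := by exact_mod_cast hsplit
      have hJ' : (0 : ℝ) < (G B J : ℝ) := by exact_mod_cast hJ
      have : (0 : ℝ) < (G B (insert i J) : ℝ) := by nlinarith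
      exact_mod_cast this
  have hI := hpos I (Finset.Subset.refl _)
  obtain ⟨ω, hω⟩ := Finset.card_pos.mp hI
  exact ⟨ω, mem_ev.mp hω⟩

end Pool.Agent.Helper635.LLL
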