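import Mathlib

set_option autoImplicit false
set_option linter.unusedSectionVars false
open Classical

/-! Types of subcubes: lists of prefix counts modulo `m`, and the types seen inside a larger cube. -/

namespace Pool.Agent.Helper635.Types

variable {m : ℕ} [NeZero m]

/-- add `a` to all entries -/
def sh (a : ZMod m) (l : List (ZMod m)) : List (ZMod m) := l.map (fun x => x + a)

lemma sh_length (a : ZMod m) (l : List (ZMod m)) : (sh a l).length = l.length := by
  simp [sh]

lemma sh_cons (a x : ZMod m) (l : List (ZMod m)) : sh a (x :: l) = (x + a) :: sh a l := by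
  simp [sh]

lemma sh_sh (a b : ZMod m) (l : List (ZMod m)) : sh a (sh b l) = sh (b + a) l := by
  simp [sh]

lemma sh_zero (l : List (ZMod m)) : sh (0 : ZMod m) l = l := by
  simp [sh]

lemma sh_inj (a : ZMod m) : Function.Injective (sh a) := by
  intro x y h
  have : sh (-a) (sh a x) = sh (-a) (sh a y) := by rw [h]
  simpa [sh_sh, sh_zero] using this

/-- types obtained from the type `l` of a cube by fixing `c` further coordinates -/
noncomputable def out : List (ZMod m) → ℕ → Finset (List (ZMod m))
  | [], _ => ∅
  | s :: l, 0 => {s :: l}
  | s :: l, c + 1 => (out l (c + 1)).image (List.cons s) ∪ (out l c ∪ (out l c).image (sh 1))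

lemma out_length (l : List (ZMod m)) : ∀ (c : ℕ) (x : List (ZMod m)), x ∈ out l c →
    x.length + c = l.length := by
  induction l with
  | nil => intro c x hx; simp [out] at hx
  | cons s l ih =>
    intro c x hx
    cases c with
    | zero => simp only [out, Finset.mem_singleton] at hx; subst hx; rfl
    | succ c =>
      simp only [out, Finset.mem_union, Finset.mem_image] at hx
      rcases hx with ⟨y, hy, rfl⟩ | hx | ⟨y, hy, rfl⟩
      · have := ih _ _ hy; simp only [List.length_cons]; omega
      · have := ih _ _ hx; simp only [List.length_cons]; omega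
      · have := ih _ _ hy; rw [sh_length]; simp only [List.length_cons]; omega

lemma out_ne_nil (l : List (ZMod m)) : ∀ (c : ℕ) (x : List (ZMod m)), x ∈ out l c → x ≠ [] := by
  induction l with
  | nil => intro c x hx; simp [out] at hx
  | cons s l ih =>
    intro c x hx
    cases c with
    | zero => simp only [out, Finset.mem_singleton] at hx; subst hx; simp
    | succ c =>
      simp only [out, Finset.mem_union, Finset.mem_image] at hx
      rcases hx with ⟨y, hy, rfl⟩ | hx | ⟨y, hy, rfl⟩
      · simp
      · exact ih _ _ hx
      · intro h
        have h1 : (sh (1 : ZMod m) y).length = 0 := by rw [h]; rfl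
        rw [sh_length, List.length_eq_zero_iff] at h1
        exact ih _ _ hy h1

/-- last entry, with a default -/
def lst (l : List (ZMod m)) : ZMod m := l.getLastD 0

lemma lst_cons (s : ZMod m) (l : List (ZMod m)) (h : l ≠ []) : lst (s :: l) = lst l := by
  cases l with
  | nil => exact absurd rfl h
  | cons a l => rfl

lemma lst_sh (a : ZMod m) (l : List (ZMod m)) (h : l ≠ []) : lst (sh a l) = lst l + a := by
  induction l with
  | nil => exact absurd rfl h
  | cons s l ih =>
    cases l with
    | nil => rfl
    | cons b l =>
      rw [sh_cons, lst_cons _ _ (by simp [sh]), lst_cons _ _ (by simp)]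
      exact ih (by simp)

lemma out_lst (l : List (ZMod m)) : ∀ (c : ℕ) (x : List (ZMod m)), x ∈ out l c →
    ∃ e : ℕ, e ≤ c ∧ lst x = lst l + (e : ZMod m) := by
  induction l with
  | nil => intro c x hx; simp [out] at hx
  | cons s l ih =>
    intro c x hx
    cases c with
    | zero =>
      simp only [out, Finset.mem_singleton] at hx; subst hx
      exact ⟨0, le_rfl, by simp⟩
    | succ c =>
      simp only [out, Finset.mem_union, Finset.mem_image] at hx
      have hl : l ≠ [] := by
        rintro rfl
        rcases hx with ⟨y, hy, -⟩ | hx | ⟨y, hy, -⟩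
        · simp [out] at hy
        · simp [out] at hx
        · simp [out] at hy
      rw [lst_cons s l hl]
      rcases hx with ⟨y, hy, rfl⟩ | hx | ⟨y, hy, rfl⟩
      · obtain ⟨e, he, h⟩ := ih _ _ hy
        exact ⟨e, he, by rw [lst_cons _ _ (out_ne_nil _ _ _ hy), h]⟩
      · obtain ⟨e, he, h⟩ := ih _ _ hx
        exact ⟨e, he.trans (Nat.le_succ _), h⟩
      · obtain ⟨e, he, h⟩ := ih _ _ hy
        refine ⟨e + 1, Nat.succ_le_succ he, ?_⟩
        rw [lst_sh _ _ (out_ne_nil _ _ _ hy), h]
        push_cast; ring

/-- no full orbit of the shift inside `out l c` when `c + 1 < m` -/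
lemma out_no_orbit (l : List (ZMod m)) (c : ℕ) (hc : c + 1 < m) (x : List (ZMod m))
    (hx : x ∈ out l c) : ∃ j : ℕ, sh (j : ZMod m) x ∉ out l c := by
  by_contra hcon
  push Not at hcon
  have hxne := out_ne_nil _ _ _ hx
  have hsub : (Finset.univ : Finset (ZMod m)) ⊆
      (Finset.range (c + 1)).image (fun e : ℕ => lst l + (e : ZMod m)) := by
    intro y _
    have h1 := hcon (y - lst x).val
    obtain ⟨e, he, h⟩ := out_lst _ _ _ h1
    rw [lst_sh _ _ hxne, ZMod.natCast_zmod_val] at h
    rw [Finset.mem_image]
    exact ⟨e, Finset.mem_range.mpr (Nat.lt_succ_of_le he), by rw [← h]; ring⟩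
  have h2 := (Finset.card_le_card hsub).trans Finset.card_image_le
  rw [Finset.card_univ, ZMod.card, Finset.card_range] at h2
  omega

/-- normal form along a shift orbit -/
def nrm (l : List (ZMod m)) : List (ZMod m) := sh (-(l.headD 0)) l

lemma nrm_sh (a : ZMod m) (l : List (ZMod m)) (h : l ≠ []) : nrm (sh a l) = nrm l := by
  cases l with
  | nil => exact absurd rfl h
  | cons s l =>
    simp only [nrm, sh_cons, List.headD_cons]
    rw [sh_sh]
    have h1 : s + a + -(s + a) = s + -s := by ring
    have h2 : a + -(s + a) = -s := by ring
    rw [h1, h2]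

section orbit

variable (B : Finset (List (ZMod m)))
  (hne : ∀ x ∈ B, x ≠ []) (horb : ∀ x ∈ B, ∃ j : ℕ, sh (j : ZMod m) x ∉ B)

include hne horb

lemma exists_end (x : List (ZMod m)) (hx : x ∈ B) :
    ∃ e ∈ (B.image (sh 1)) \ B, nrm e = nrm x := by
  obtain ⟨j, hj⟩ := horb x hx
  have hex : ∃ j : ℕ, sh (j : ZMod m) x ∉ B := ⟨j, hj⟩
  set k := Nat.find hex with hk
  have hk1 : sh (k : ZMod m) x ∉ B := Nat.find_spec hex
  have hk0 : k ≠ 0 := by
    intro h0
    rw [h0] at hk1
    apply hk1
    simpa [sh_zero] using hx
  obtain ⟨i, hi⟩ := Nat.exists_eq_succ_of_ne_zero hk0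
  have hlt : i < Nat.find hex := by rw [← hk, hi]; exact Nat.lt_succ_self i
  have hi1 : sh (i : ZMod m) x ∈ B := by
    have := Nat.find_min hex hlt
    simpa using this
  refine ⟨sh (k : ZMod m) x, ?_, nrm_sh _ _ (hne x hx)⟩
  rw [Finset.mem_sdiff, Finset.mem_image]
  refine ⟨⟨sh (i : ZMod m) x, hi1, ?_⟩, hk1⟩
  rw [sh_sh, hi]
  push_cast; rfl

lemma head_count (s : ZMod m) :
    ((B ∪ B.image (sh 1)).filter (fun x => x.headD 0 = s)).card ≤ ((B.image (sh 1)) \ B).card := by
  set Z := (B ∪ B.image (sh 1)).filter (fun x => x.headD 0 = s) with hZ
  have h1 : Z.card = (Z.image nrm).card := by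
    rw [Finset.card_image_of_injOn]
    intro x hx y hy hxy
    have hxs : x.headD 0 = s := (Finset.mem_filter.mp hx).2
    have hys : y.headD 0 = s := (Finset.mem_filter.mp hy).2
    simp only [nrm, hxs, hys] at hxy
    exact sh_inj _ hxy
  have h2 : Z.image nrm ⊆ ((B.image (sh 1)) \ B).image nrm := by
    intro z hz
    obtain ⟨x, hx, rfl⟩ := Finset.mem_image.mp hz
    rcases Finset.mem_union.mp (Finset.mem_filter.mp hx).1 with h | h
    · obtain ⟨e, he, hen⟩ := exists_end B hne horb x h
      exact Finset.mem_image.mpr ⟨e, he, hen⟩
    · obtain ⟨y, hy, rfl⟩ := Finset.mem_image.mp h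
      obtain ⟨e, he, hen⟩ := exists_end B hne horb y hy
      exact Finset.mem_image.mpr ⟨e, he, by rw [hen, nrm_sh _ _ (hne y hy)]⟩
  rw [h1]
  exact (Finset.card_le_card h2).trans Finset.card_image_le

lemma other_heads (s : ZMod m) :
    B.card ≤ ((B ∪ B.image (sh 1)).filter (fun x => ¬ x.headD 0 = s)).card := by
  have h1 := head_count B hne horb s
  have h2 := Finset.card_filter_add_card_filter_not (s := B ∪ B.image (sh 1))
    (fun x => x.headD 0 = s)
  have h3 : (B ∪ B.image (sh 1)).card = B.card + ((B.image (sh 1)) \ B).card := by
    rw [← Finset.union_sdiff_self_eq_union, Finset.card_union_of_disjoint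
      (Finset.disjoint_sdiff)]
  omega

lemma union_gt (hB : B.Nonempty) : B.card + 1 ≤ (B ∪ B.image (sh 1)).card := by
  obtain ⟨x, hx⟩ := hB
  obtain ⟨e, he, -⟩ := exists_end B hne horb x hx
  have h3 : (B ∪ B.image (sh 1)).card = B.card + ((B.image (sh 1)) \ B).card := by
    rw [← Finset.union_sdiff_self_eq_union, Finset.card_union_of_disjoint
      (Finset.disjoint_sdiff)]
  have : 0 < ((B.image (sh 1)) \ B).card := Finset.card_pos.mpr ⟨e, he⟩
  omega

end orbit

/-- a cube with `d` free coordinates sees at least `C(d+1,c)` types after fixing `c` of them -/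
lemma out_card_ge (l : List (ZMod m)) : ∀ (d c : ℕ), l.length = d + 1 → c ≤ d → c < m →
    (d + 1).choose c ≤ (out l c).card := by
  induction l with
  | nil => intro d c h; simp at h
  | cons s l ih =>
    intro d c hl hcd hcm
    cases c with
    | zero => simp [out]
    | succ c =>
      have hld : l.length = d := by simpa using hl
      obtain ⟨d', rfl⟩ : ∃ d', d = d' + 1 := ⟨d - 1, by omega⟩
      set B := out l c with hBdef
      have hne : ∀ x ∈ B, x ≠ [] := fun x hx => out_ne_nil _ _ _ hx
      have horb : ∀ x ∈ B, ∃ j : ℕ, sh (j : ZMod m) x ∉ B :=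
        fun x hx => out_no_orbit _ _ (by omega) _ hx
      have hB : (d' + 1).choose c ≤ B.card := ih d' c hld (by omega) (by omega)
      have hout : out (s :: l) (c + 1) =
          (out l (c + 1)).image (List.cons s) ∪ (B ∪ B.image (sh 1)) := by
        simp only [out, hBdef]
      rw [hout]
      by_cases hc : c + 1 ≤ d'
      · have hA : (d' + 1).choose (c + 1) ≤ ((out l (c + 1)).image (List.cons s)).card := by
          rw [Finset.card_image_of_injective _ (List.cons_injective)]
          exact ih d' (c + 1) hld hc hcm
        have hoh := other_heads B hne horb s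
        have hdis : Disjoint ((out l (c + 1)).image (List.cons s))
            ((B ∪ B.image (sh 1)).filter (fun x => ¬ x.headD 0 = s)) := by
          rw [Finset.disjoint_left]
          intro x hx hx'
          obtain ⟨y, -, rfl⟩ := Finset.mem_image.mp hx
          exact (Finset.mem_filter.mp hx').2 (by simp)
        calc (d' + 1 + 1).choose (c + 1) = (d' + 1).choose c + (d' + 1).choose (c + 1) :=
              Nat.choose_succ_succ _ _
          _ ≤ ((B ∪ B.image (sh 1)).filter (fun x => ¬ x.headD 0 = s)).card
              + ((out l (c + 1)).image (List.cons s)).card := Nat.add_le_add (hB.trans hoh) hA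
          _ = (((out l (c + 1)).image (List.cons s)) ∪
              ((B ∪ B.image (sh 1)).filter (fun x => ¬ x.headD 0 = s))).card := by
              rw [Finset.card_union_of_disjoint hdis, add_comm]
          _ ≤ _ := Finset.card_le_card
              (Finset.union_subset_union_right (Finset.filter_subset _ _))
      · have hcd' : c = d' := by omega
        subst hcd'
        have hBne : B.Nonempty := by
          rw [← Finset.card_pos]
          exact lt_of_lt_of_le (Nat.choose_pos (by omega)) hB
        have h1 := union_gt B hne horb hBne
        calc (c + 1 + 1).choose (c + 1) = (c + 1).choose c + (c + 1).choose (c + 1) :=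
              Nat.choose_succ_succ _ _
          _ ≤ B.card + 1 := by rw [Nat.choose_self]; exact Nat.add_le_add_right hB 1
          _ ≤ (B ∪ B.image (sh 1)).card := h1
          _ ≤ _ := Finset.card_le_card Finset.subset_union_right

lemma out_card_le (l : List (ZMod m)) : ∀ (s : ZMod m) (c : ℕ),
    (out (s :: l) c).card ≤ 2 ^ c * l.length.choose c := by
  induction l with
  | nil =>
    intro s c
    cases c with
    | zero => simp [out]
    | succ c => simp [out]
  | cons a l ih =>
    intro s c
    cases c with
    | zero => simp [out]
    | succ c =>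
      have h1 := ih a (c + 1)
      have h2 := ih a c
      have h3 : (out (s :: a :: l) (c + 1)).card ≤
          (out (a :: l) (c + 1)).card + ((out (a :: l) c).card + (out (a :: l) c).card) := by
        rw [out]
        refine (Finset.card_union_le _ _).trans ?_
        refine Nat.add_le_add Finset.card_image_le ?_
        refine (Finset.card_union_le _ _).trans ?_
        exact Nat.add_le_add le_rfl Finset.card_image_le
      refine h3.trans ?_
      rw [List.length_cons, Nat.choose_succ_succ', mul_add, pow_succ]
      have h4 : 2 ^ c * 2 * l.length.choose c = 2 ^ c * l.length.choose c +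
        2 ^ c * l.length.choose c := by ring
      rw [h4]
      have h1' : (out (a :: l) (c + 1)).card ≤ 2 ^ c * 2 * l.length.choose (c + 1) := by
        rw [← pow_succ]; exact h1
      omega

/-- a superset of the set of types of `d`-cubes that see the type `t` -/
noncomputable def pre : ℕ → ℕ → List (ZMod m) → Finset (List (ZMod m))
  | _, 0, t => {t}
  | 0, _ + 1, _ => ∅
  | d + 1, c + 1, t => (pre d (c + 1) t.tail).image (List.cons (t.headD 0)) ∪
      (((Finset.univ : Finset (ZMod m)) ×ˢ pre d c t).image (fun q => q.1 :: q.2) ∪
      ((Finset.univ : Finset (ZMod m)) ×ˢ pre d c (sh (-1) t)).image (fun q => q.1 :: q.2))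

lemma pre_card (d : ℕ) : ∀ (c : ℕ) (t : List (ZMod m)),
    (pre d c t).card ≤ (2 * m) ^ c * d.choose c := by
  induction d with
  | zero =>
    intro c t
    cases c with
    | zero => simp [pre]
    | succ c => simp [pre]
  | succ d ih =>
    intro c t
    cases c with
    | zero => simp [pre]
    | succ c =>
      rw [pre]
      refine (Finset.card_union_le _ _).trans ?_
      have h1 : ((pre d (c + 1) t.tail).image (List.cons (t.headD 0))).card ≤
          (2 * m) ^ (c + 1) * d.choose (c + 1) := Finset.card_image_le.trans (ih _ _)
      have h2 : ∀ u : List (ZMod m), (((Finset.univ : Finset (ZMod m)) ×ˢ pre d c u).image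
          (fun q : ZMod m × List (ZMod m) => q.1 :: q.2)).card ≤ m * ((2 * m) ^ c * d.choose c) := by
        intro u
        refine Finset.card_image_le.trans ?_
        rw [Finset.card_product, Finset.card_univ, ZMod.card]
        exact Nat.mul_le_mul_left _ (ih _ _)
      have h3 := (Finset.card_union_le (((Finset.univ : Finset (ZMod m)) ×ˢ pre d c t).image
          (fun q : ZMod m × List (ZMod m) => q.1 :: q.2))
          (((Finset.univ : Finset (ZMod m)) ×ˢ pre d c (sh (-1) t)).image
          (fun q : ZMod m × List (ZMod m) => q.1 :: q.2))).trans (Nat.add_le_add (h2 _) (h2 _))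
      rw [Nat.choose_succ_succ', mul_add]
      have h4 : m * ((2 * m) ^ c * d.choose c) + m * ((2 * m) ^ c * d.choose c)
          = (2 * m) ^ (c + 1) * d.choose c := by ring
      omega

lemma mem_pre (l : List (ZMod m)) : ∀ (d c : ℕ) (t : List (ZMod m)), l.length = d + 1 →
    t ∈ out l c → l ∈ pre d c t := by
  induction l with
  | nil => intro d c t h; simp at h
  | cons s l ih =>
    intro d c t hl ht
    cases c with
    | zero =>
      simp only [out, Finset.mem_singleton] at ht
      simp [pre, ht]
    | succ c =>
      simp only [out, Finset.mem_union, Finset.mem_image] at ht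
      have hlen : l.length = d := by simpa using hl
      cases d with
      | zero =>
        have hnil : l = [] := List.length_eq_zero_iff.mp hlen
        subst hnil
        rcases ht with ⟨y, hy, -⟩ | hx | ⟨y, hy, -⟩
        · simp [out] at hy
        · simp [out] at hx
        · simp [out] at hy
      | succ d =>
        rw [pre, Finset.mem_union, Finset.mem_union]
        rcases ht with ⟨y, hy, rfl⟩ | hx | ⟨y, hy, rfl⟩
        · left
          rw [Finset.mem_image]
          refine ⟨l, ih d (c + 1) y hlen hy, ?_⟩
          simp
        · right; left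
          rw [Finset.mem_image]
          exact ⟨(s, l), by
            rw [Finset.mem_product]; exact ⟨Finset.mem_univ _, ih d c t hlen hx⟩, rfl⟩
        · right; right
          rw [Finset.mem_image]
          refine ⟨(s, l), ?_, rfl⟩
          rw [Finset.mem_product]
          refine ⟨Finset.mem_univ _, ?_⟩
          have : sh (-1) (sh 1 y) = y := by rw [sh_sh]; simp [sh_zero]
          rw [this]
          exact ih d c y hlen hy

/-- all lists of a given length -/
noncomputable def allL : ℕ → Finset (List (ZMod m))
  | 0 => {[]}
  | n + 1 => ((Finset.univ : Finset (ZMod m)) ×ˢ allL n).image (fun q => q.1 :: q.2)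

lemma mem_allL (n : ℕ) : ∀ l : List (ZMod m), l ∈ allL n ↔ l.length = n := by
  induction n with
  | zero => intro l; simp [allL]
  | succ n ih =>
    intro l
    rw [allL, Finset.mem_image]
    constructor
    · rintro ⟨⟨a, u⟩, hq, rfl⟩
      rw [Finset.mem_product] at hq
      simp [(ih u).mp hq.2]
    · intro h
      cases l with
      | nil => simp at h
      | cons a u =>
        exact ⟨(a, u), by
          rw [Finset.mem_product]
          exact ⟨Finset.mem_univ _, (ih u).mpr (by simpa using h)⟩, rfl⟩

/-- type of a word over {0,1,*}: prefix counts of ones at the stars, then the total -/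
def ty : ZMod m → List (Option Bool) → List (ZMod m)
  | a, [] => [a]
  | a, none :: l => a :: ty a l
  | a, some true :: l => ty (a + 1) l
  | a, some false :: l => ty a l

lemma ty_sh (l : List (Option Bool)) : ∀ a b : ZMod m, ty (a + b) l = sh b (ty a l) := by
  induction l with
  | nil => intro a b; simp [ty, sh]
  | cons x l ih =>
    intro a b
    match x with
    | none => simp only [ty, sh_cons]; rw [ih]
    | some true =>
      simp only [ty]
      rw [← ih]
      congr 1
      ring
    | some false => simp only [ty]; rw [ih]

lemma ty_length (l : List (Option Bool)) : ∀ a : ZMod m, (ty a l).length = l.count none + 1 := by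
  induction l with
  | nil => intro a; simp [ty]
  | cons x l ih =>
    intro a
    match x with
    | none => simp only [ty, List.length_cons, ih]; simp
    | some true => simp only [ty, ih]; simp
    | some false => simp only [ty, ih]; simp

lemma ty_ne_nil (l : List (Option Bool)) (a : ZMod m) : ty a l ≠ [] := by
  intro h
  have := ty_length l a
  rw [h] at this
  simp at this

/-- `D` is a word extending `C` -/
def Ext (C D : List (Option Bool)) : Prop :=
  List.Forall₂ (fun x y => ∀ b : Bool, x = some b → y = some b) C D

lemma ext_refl (C : List (Option Bool)) : Ext C C := by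
  induction C with
  | nil => exact List.Forall₂.nil
  | cons x C ih => exact List.Forall₂.cons (fun b h => h) ih

/-- every type in `out` is realised by a subcube -/
lemma realise (C : List (Option Bool)) : ∀ (a : ZMod m) (c : ℕ) (t : List (ZMod m)),
    t ∈ out (ty a C) c → ∃ D, Ext C D ∧ D.count none + c = C.count none ∧ ty a D = t := by
  induction C with
  | nil =>
    intro a c t ht
    cases c with
    | zero =>
      simp only [ty, out, Finset.mem_singleton] at ht
      exact ⟨[], List.Forall₂.nil, by simp, ht.symm⟩
    | succ c => simp [ty, out] at ht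
  | cons x C ih =>
    intro a c t ht
    match x with
    | some true =>
      simp only [ty] at ht
      obtain ⟨D, h1, h2, h3⟩ := ih _ _ _ ht
      exact ⟨some true :: D, List.Forall₂.cons (fun b h => h) h1, by simpa using h2,
        by simpa [ty] using h3⟩
    | some false =>
      simp only [ty] at ht
      obtain ⟨D, h1, h2, h3⟩ := ih _ _ _ ht
      exact ⟨some false :: D, List.Forall₂.cons (fun b h => h) h1, by simpa using h2,
        by simpa [ty] using h3⟩
    | none =>
      cases c with
      | zero =>
        simp only [ty, out, Finset.mem_singleton] at ht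
        exact ⟨none :: C, ext_refl _, by simp, by rw [ht]; rfl⟩
      | succ c =>
        simp only [ty, out, Finset.mem_union, Finset.mem_image] at ht
        rcases ht with ⟨y, hy, rfl⟩ | hx | ⟨y, hy, rfl⟩
        · obtain ⟨D, h1, h2, h3⟩ := ih _ _ _ hy
          refine ⟨none :: D, List.Forall₂.cons (fun b h => h) h1, ?_, by simp [ty, h3]⟩
          simp only [List.count_cons_self]; omega
        · obtain ⟨D, h1, h2, h3⟩ := ih _ _ _ hx
          refine ⟨some false :: D, List.Forall₂.cons (fun b h => by simp at h) h1, ?_,
            by simpa [ty] using h3⟩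
          have : (some false :: D).count none = D.count none := by simp
          rw [this, List.count_cons_self]; omega
        · obtain ⟨D, h1, h2, h3⟩ := ih _ _ _ hy
          refine ⟨some true :: D, List.Forall₂.cons (fun b h => by simp at h) h1, ?_, ?_⟩
          · have : (some true :: D).count none = D.count none := by simp
            rw [this, List.count_cons_self]; omega
          · simp only [ty]
            rw [ty_sh, h3]

end Pool.Agent.Helper635.Types
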