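import Mathlib
import Pool.Agent.Helper635.LLL
import Pool.Agent.Helper635.Types

set_option autoImplicit false
set_option linter.unusedSectionVars false
open Classical

/-! Existence of the colouring of types by the local lemma, and transfer to subcubes. -/

namespace Pool.Agent.Helper635.Colour

open Pool.Agent.Helper635.LLL Pool.Agent.Helper635.Types

lemma cnt_avoid {T : Type} [Fintype T] (k : ℕ) (S : Finset T) (j : Fin k) :
    cnt (fun ω : T → Fin k => ∀ t ∈ S, ω t ≠ j) = (k - 1) ^ S.card * k ^ (Fintype.card T - S.card) := by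
  have h1 : ev (fun ω : T → Fin k => ∀ t ∈ S, ω t ≠ j) =
      Fintype.piFinset (fun t => if t ∈ S then (Finset.univ.erase j : Finset (Fin k)) else Finset.univ) := by
    ext ω
    rw [mem_ev, Fintype.mem_piFinset]
    constructor
    · intro h t
      by_cases ht : t ∈ S
      · simp [ht, h t ht]
      · simp [ht]
    · intro h t ht
      have := h t
      simpa [ht] using this
  rw [cnt, h1, Fintype.card_piFinset]
  have h2 : ∀ t : T, (if t ∈ S then (Finset.univ.erase j : Finset (Fin k)) else Finset.univ).card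
      = if t ∈ S then k - 1 else k := by
    intro t
    by_cases ht : t ∈ S
    · simp [ht]
    · simp [ht]
  rw [Finset.prod_congr rfl (fun t _ => h2 t), Finset.prod_ite, Finset.prod_const, Finset.prod_const]
  congr 2
  · congr 1
    ext t; simp
  · have h3 : (Finset.univ.filter (fun t : T => t ∉ S)) = Sᶜ := by
      ext t; simp
    rw [h3, Finset.card_compl]

/-- local lemma for set systems: polychromatic colourings -/
lemma poly_lll {T ι : Type} [Fintype T] (I : Finset ι) (S : ι → Finset T) (k M D : ℕ) (hk : 1 ≤ k)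
    (hM : ∀ i ∈ I, M ≤ (S i).card)
    (hD : ∀ i ∈ I, ∃ N : Finset ι, N.card ≤ D ∧ ∀ j ∈ I, ¬ Disjoint (S i) (S j) → j ∈ N)
    (hD1 : 1 ≤ D)
    (h4 : 4 * (k * Real.exp (-(M : ℝ) / k)) * D ≤ 1) :
    ∃ ω : T → Fin k, ∀ i ∈ I, ∀ j : Fin k, ∃ t ∈ S i, ω t = j := by
  have hkpos : (0 : ℝ) < k := by exact_mod_cast hk
  have : Nonempty (Fin k) := ⟨⟨0, hk⟩⟩
  have hcardpos : 0 < Fintype.card (T → Fin k) := Fintype.card_pos
  obtain ⟨ω, hω⟩ := lll I (fun i (ω : T → Fin k) => ∃ j : Fin k, ∀ t ∈ S i, ω t ≠ j) S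
    (by
      intro i _ ω ω' hag hbad
      obtain ⟨j, hj⟩ := hbad
      exact ⟨j, fun t ht => by rw [← hag t ht]; exact hj t ht⟩)
    (k * Real.exp (-(M : ℝ) / k)) D (by positivity)
    (by
      intro i hi
      have hsub : ev (fun ω : T → Fin k => ∃ j : Fin k, ∀ t ∈ S i, ω t ≠ j) ⊆
          (Finset.univ : Finset (Fin k)).biUnion
            (fun j => ev (fun ω : T → Fin k => ∀ t ∈ S i, ω t ≠ j)) := by
        intro ω hω
        rw [mem_ev] at hω
        obtain ⟨j, hj⟩ := hω
        rw [Finset.mem_biUnion]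
        exact ⟨j, Finset.mem_univ _, mem_ev.mpr hj⟩
      have h1 : cnt (fun ω : T → Fin k => ∃ j : Fin k, ∀ t ∈ S i, ω t ≠ j) ≤
          k * ((k - 1) ^ (S i).card * k ^ (Fintype.card T - (S i).card)) := by
        refine (Finset.card_le_card hsub).trans (Finset.card_biUnion_le.trans ?_)
        have : ∀ j ∈ (Finset.univ : Finset (Fin k)),
            (ev (fun ω : T → Fin k => ∀ t ∈ S i, ω t ≠ j)).card =
            (k - 1) ^ (S i).card * k ^ (Fintype.card T - (S i).card) := by
          intro j _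
          exact cnt_avoid k (S i) j
        rw [Finset.sum_congr rfl this, Finset.sum_const, Finset.card_univ, Fintype.card_fin,
          smul_eq_mul]
      have hle : (S i).card ≤ Fintype.card T := Finset.card_le_univ _
      have h2 : (((k - 1) ^ (S i).card * k ^ (Fintype.card T - (S i).card) : ℕ) : ℝ)
          = (1 - 1 / (k : ℝ)) ^ (S i).card * (k : ℝ) ^ (Fintype.card T) := by
        push_cast [Nat.cast_sub hk]
        have h3 : (k : ℝ) ^ (Fintype.card T) = (k : ℝ) ^ (S i).card *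
            (k : ℝ) ^ (Fintype.card T - (S i).card) := by
          rw [← pow_add, Nat.add_sub_cancel' hle]
        rw [h3, ← mul_assoc, ← mul_pow]
        congr 2
        field_simp
      have h0 : (0 : ℝ) ≤ 1 - 1 / (k : ℝ) := by
        rw [sub_nonneg, div_le_one hkpos]; exact_mod_cast hk
      have h1' : (1 : ℝ) - 1 / (k : ℝ) ≤ 1 := by
        have : (0 : ℝ) ≤ 1 / (k : ℝ) := by positivity
        linarith
      have h5 : (1 - 1 / (k : ℝ)) ^ (S i).card ≤ Real.exp (-(M : ℝ) / k) := by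
        calc (1 - 1 / (k : ℝ)) ^ (S i).card ≤ (1 - 1 / (k : ℝ)) ^ M :=
              pow_le_pow_of_le_one h0 h1' (hM i hi)
          _ ≤ (Real.exp (-(1 / (k : ℝ)))) ^ M := by
              refine pow_le_pow_left₀ h0 ?_ M
              have := Real.add_one_le_exp (-(1 / (k : ℝ)))
              linarith
          _ = Real.exp (-(M : ℝ) / k) := by
              rw [← Real.exp_nat_mul]; congr 1; ring
      have h6 : (Fintype.card (T → Fin k) : ℝ) = (k : ℝ) ^ (Fintype.card T) := by
        rw [Fintype.card_fun, Fintype.card_fin]; push_cast; rfl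
      rw [h6]
      calc (cnt (fun ω : T → Fin k => ∃ j : Fin k, ∀ t ∈ S i, ω t ≠ j) : ℝ)
          ≤ ((k * ((k - 1) ^ (S i).card * k ^ (Fintype.card T - (S i).card)) : ℕ) : ℝ) := by
            exact_mod_cast h1
        _ = k * ((1 - 1 / (k : ℝ)) ^ (S i).card * (k : ℝ) ^ (Fintype.card T)) := by
            rw [Nat.cast_mul, h2]
        _ ≤ k * (Real.exp (-(M : ℝ) / k) * (k : ℝ) ^ (Fintype.card T)) := by
            refine mul_le_mul_of_nonneg_left (mul_le_mul_of_nonneg_right h5 (by positivity))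
              hkpos.le
        _ = k * Real.exp (-(M : ℝ) / k) * (k : ℝ) ^ (Fintype.card T) := by ring)
    (by
      intro i hi
      obtain ⟨N, hN, hNj⟩ := hD i hi
      refine le_trans (Finset.card_le_card ?_) hN
      intro j hj
      rw [Finset.mem_filter] at hj
      exact hNj j hj.1 hj.2) h4 hD1 hcardpos
  refine ⟨ω, fun i hi j => ?_⟩
  have := hω i hi
  push Not at this
  obtain ⟨t, ht, h⟩ := this j
  exact ⟨t, ht, h⟩

/-- the numerical condition of the local lemma -/
lemma numeric (M N c k : ℕ) (hk : 1 ≤ k) (hM : 1 ≤ M) (hN : N ≤ M)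
    (hkM : (k : ℝ) * (2 + 3 * Real.log M + c * Real.log (4 * (c + 1))) ≤ M) :
    4 * ((k : ℝ) * Real.exp (-(M : ℝ) / k)) *
      (((2 ^ c * N) * ((2 * (c + 1)) ^ c * N) : ℕ) : ℝ) ≤ 1 := by
  have hM1 : (1 : ℝ) ≤ M := by exact_mod_cast hM
  have hlogM : 0 ≤ Real.log M := Real.log_nonneg hM1
  have hc0 : (0 : ℝ) ≤ c := Nat.cast_nonneg c
  have hlogc : 0 ≤ Real.log (4 * ((c : ℝ) + 1)) := Real.log_nonneg (by linarith)
  have hkpos : (0 : ℝ) < k := by exact_mod_cast hk
  have hX : 0 ≤ (c : ℝ) * Real.log (4 * ((c : ℝ) + 1)) := mul_nonneg hc0 hlogc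
  have hkM' : (k : ℝ) ≤ M := by
    have : (k : ℝ) * 1 ≤ (k : ℝ) * (2 + 3 * Real.log M + c * Real.log (4 * (c + 1))) :=
      mul_le_mul_of_nonneg_left (by linarith) hkpos.le
    linarith
  have hDM : (((2 ^ c * N) * ((2 * (c + 1)) ^ c * N) : ℕ) : ℝ) ≤
      (4 * ((c : ℝ) + 1)) ^ c * (M : ℝ) ^ 2 := by
    have h2 : (2 ^ c * N) * ((2 * (c + 1)) ^ c * N) ≤ (2 ^ c * M) * ((2 * (c + 1)) ^ c * M) :=
      Nat.mul_le_mul (Nat.mul_le_mul_left _ hN) (Nat.mul_le_mul_left _ hN)
    have h3 : (2 ^ c * M) * ((2 * (c + 1)) ^ c * M) = (4 * (c + 1)) ^ c * M ^ 2 := by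
      have : (4 * (c + 1)) ^ c = 2 ^ c * (2 * (c + 1)) ^ c := by
        rw [← mul_pow]; congr 1; ring
      rw [this]; ring
    rw [h3] at h2
    have h4 : (((2 ^ c * N) * ((2 * (c + 1)) ^ c * N) : ℕ) : ℝ) ≤
      (((4 * (c + 1)) ^ c * M ^ 2 : ℕ) : ℝ) := Nat.cast_le.mpr h2
    refine h4.trans (le_of_eq ?_)
    push_cast
    ring
  have hexp : Real.exp (2 + 3 * Real.log M + c * Real.log (4 * (c + 1))) ≤
      Real.exp ((M : ℝ) / k) := by
    apply Real.exp_le_exp.mpr
    rw [le_div_iff₀ hkpos]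
    linarith
  have hexp2 : Real.exp (2 + 3 * Real.log M + c * Real.log (4 * (c + 1))) =
      Real.exp 2 * (M : ℝ) ^ 3 * (4 * ((c : ℝ) + 1)) ^ c := by
    rw [Real.exp_add, Real.exp_add]
    congr 1
    · congr 1
      have : (3 : ℝ) * Real.log M = ((3 : ℕ) : ℝ) * Real.log M := by norm_num
      rw [this, Real.exp_nat_mul, Real.exp_log (by linarith)]
    · rw [Real.exp_nat_mul, Real.exp_log (by positivity)]
  have he2 : (4 : ℝ) ≤ Real.exp 2 := by
    have h1 := Real.add_one_le_exp (1 : ℝ)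
    have h2 : Real.exp 2 = Real.exp 1 * Real.exp 1 := by rw [← Real.exp_add]; norm_num
    rw [h2]; nlinarith
  have hM3 : (0 : ℝ) ≤ (M : ℝ) ^ 3 * (4 * ((c : ℝ) + 1)) ^ c := by positivity
  have hkey : 4 * (k : ℝ) * (((2 ^ c * N) * ((2 * (c + 1)) ^ c * N) : ℕ) : ℝ)
      ≤ Real.exp ((M : ℝ) / k) := by
    calc 4 * (k : ℝ) * (((2 ^ c * N) * ((2 * (c + 1)) ^ c * N) : ℕ) : ℝ)
        ≤ 4 * (M : ℝ) * ((4 * ((c : ℝ) + 1)) ^ c * (M : ℝ) ^ 2) := by
          apply mul_le_mul (by linarith) hDM (Nat.cast_nonneg _) (by linarith)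
      _ = 4 * ((M : ℝ) ^ 3 * (4 * ((c : ℝ) + 1)) ^ c) := by ring
      _ ≤ Real.exp 2 * ((M : ℝ) ^ 3 * (4 * ((c : ℝ) + 1)) ^ c) :=
          mul_le_mul_of_nonneg_right he2 hM3
      _ = Real.exp 2 * (M : ℝ) ^ 3 * (4 * ((c : ℝ) + 1)) ^ c := by ring
      _ ≤ Real.exp ((M : ℝ) / k) := by rw [← hexp2]; exact hexp
  have hneg : Real.exp (-(M : ℝ) / k) = (Real.exp ((M : ℝ) / k))⁻¹ := by
    rw [← Real.exp_neg]; congr 1; ring
  rw [hneg]
  have hpos : 0 < Real.exp ((M : ℝ) / k) := Real.exp_pos _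
  have hinv : 0 ≤ (Real.exp ((M : ℝ) / k))⁻¹ := (inv_pos.mpr hpos).le
  have h9 := mul_le_mul_of_nonneg_right hkey hinv
  rw [mul_inv_cancel₀ hpos.ne'] at h9
  refine le_trans (le_of_eq ?_) h9
  ring

/-- lists of length `l+1` as a finite type -/
abbrev TT (l c : ℕ) : Type :=
  {x : List (ZMod (c + 1)) // x ∈ (allL (l + 1) : Finset (List (ZMod (c + 1))))}

noncomputable def SS (l c : ℕ) (s : List (ZMod (c + 1))) : Finset (TT l c) :=
  (out s c).subtype (fun x => x ∈ (allL (l + 1) : Finset (List (ZMod (c + 1)))))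

lemma SS_card (l c : ℕ) (s : List (ZMod (c + 1))) (hs : s.length = l + c + 1) :
    (SS l c s).card = (out s c).card := by
  rw [SS, Finset.card_subtype, Finset.filter_true_of_mem]
  intro x hx
  rw [mem_allL]
  have h1 := out_length s c x hx
  omega

lemma dep_card (l c : ℕ) (s : List (ZMod (c + 1))) (hs : s.length = l + c + 1) :
    ∃ N : Finset (List (ZMod (c + 1))),
      N.card ≤ (2 ^ c * (l + c).choose c) * ((2 * (c + 1)) ^ c * (l + c).choose c) ∧
      ∀ s' ∈ (allL (l + c + 1) : Finset (List (ZMod (c + 1)))),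
        ¬ Disjoint (SS l c s) (SS l c s') → s' ∈ N := by
  refine ⟨(out s c).biUnion (fun t => pre (l + c) c t), ?_, ?_⟩
  · refine Finset.card_biUnion_le.trans ?_
    have h3 : ∑ t ∈ out s c, (pre (l + c) c t).card ≤
        ∑ _t ∈ out s c, (2 * (c + 1)) ^ c * (l + c).choose c :=
      Finset.sum_le_sum (fun t _ => pre_card (l + c) c t)
    refine h3.trans ?_
    rw [Finset.sum_const, smul_eq_mul]
    refine Nat.mul_le_mul_right _ ?_
    cases s with
    | nil => simp at hs
    | cons a s =>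
      have h4 := out_card_le s a c
      have h5 : s.length = l + c := by simpa using hs
      rw [h5] at h4
      exact h4
  · intro s' hs'I hnd
    rw [Finset.not_disjoint_iff] at hnd
    obtain ⟨t, ht1, ht2⟩ := hnd
    rw [Finset.mem_biUnion]
    refine ⟨t.1, Finset.mem_subtype.mp ht1, ?_⟩
    exact mem_pre s' (l + c) c t.1 ((mem_allL _ _).mp hs'I) (Finset.mem_subtype.mp ht2)

/-- colouring of the types of `l`-subcubes so that each type of `(l+c)`-cube sees all colours -/
theorem type_colouring (l c k : ℕ) (hk : 1 ≤ k)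
    (hkM : (k : ℝ) * (2 + 3 * Real.log ((l + c + 1).choose c : ℕ) + c * Real.log (4 * (c + 1)))
      ≤ ((l + c + 1).choose c : ℕ)) :
    ∃ g : List (ZMod (c + 1)) → Fin k, ∀ s : List (ZMod (c + 1)), s.length = l + c + 1 →
      ∀ j : Fin k, ∃ t ∈ out s c, g t = j := by
  have hMpos : 1 ≤ (l + c + 1).choose c := Nat.choose_pos (by omega)
  have hch : 1 ≤ (l + c).choose c := Nat.choose_pos (by omega)
  have hchM : (l + c).choose c ≤ (l + c + 1).choose c := Nat.choose_le_succ _ _
  have hnum := numeric _ _ c k hk hMpos hchM hkM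
  have h1 : ∀ s ∈ (allL (l + c + 1) : Finset (List (ZMod (c + 1)))),
      (l + c + 1).choose c ≤ (SS l c s).card := by
    intro s hs
    have h2 : s.length = l + c + 1 := (mem_allL _ _).mp hs
    rw [SS_card l c s h2]
    exact out_card_ge s (l + c) c h2 (by omega) (by omega)
  have h2 : ∀ s ∈ (allL (l + c + 1) : Finset (List (ZMod (c + 1)))),
      ∃ N : Finset (List (ZMod (c + 1))),
      N.card ≤ (2 ^ c * (l + c).choose c) * ((2 * (c + 1)) ^ c * (l + c).choose c) ∧
      ∀ s' ∈ (allL (l + c + 1) : Finset (List (ZMod (c + 1)))),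
        ¬ Disjoint (SS l c s) (SS l c s') → s' ∈ N :=
    fun s hs => dep_card l c s ((mem_allL _ _).mp hs)
  have h3 : 1 ≤ (2 ^ c * (l + c).choose c) * ((2 * (c + 1)) ^ c * (l + c).choose c) :=
    Nat.succ_le_of_lt (Nat.mul_pos (Nat.mul_pos (by positivity) hch)
      (Nat.mul_pos (by positivity) hch))
  obtain ⟨ω, hω⟩ := poly_lll (allL (l + c + 1)) (SS l c) k _ _ hk h1 h2 h3 hnum
  refine ⟨fun x => if h : x ∈ (allL (l + 1) : Finset (List (ZMod (c + 1)))) then ω ⟨x, h⟩
    else ⟨0, hk⟩, ?_⟩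
  intro s hs j
  obtain ⟨t, ht, hj⟩ := hω s ((mem_allL _ _).mpr hs) j
  refine ⟨t.1, Finset.mem_subtype.mp ht, ?_⟩
  simp only [t.2, dif_pos]
  exact hj

/-- number of stars of a word, as a list count -/
lemma count_ofFn {n : ℕ} (s : Fin n → Option Bool) :
    (List.ofFn s).count none = (Finset.univ.filter (fun i => s i = none)).card := by
  induction n with
  | zero => simp
  | succ n ih =>
    rw [List.ofFn_succ, List.count_cons, ih (fun i => s i.succ), Finset.card_filter,
      Finset.card_filter, Fin.sum_univ_succ, add_comm]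
    by_cases h : s 0 = none
    · simp [h]
    · simp [h]

/-- transfer: a colouring of words of dimension `l` such that each cube of dimension `l+c`
contains subcubes of all colours -/
theorem word_colouring (l c k n : ℕ) (hk : 1 ≤ k)
    (hkM : (k : ℝ) * (2 + 3 * Real.log ((l + c + 1).choose c : ℕ) + c * Real.log (4 * (c + 1)))
      ≤ ((l + c + 1).choose c : ℕ)) :
    ∃ χ : (Fin n → Option Bool) → Fin k, ∀ C : Fin n → Option Bool,
      (Finset.univ.filter (fun i => C i = none)).card = l + c → ∀ j : Fin k,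
      ∃ D : Fin n → Option Bool, (Finset.univ.filter (fun i => D i = none)).card = l ∧
        (∀ (i : Fin n) (b : Bool), C i = some b → D i = some b) ∧ χ D = j := by
  obtain ⟨g, hg⟩ := type_colouring l c k hk hkM
  refine ⟨fun D => g (ty 0 (List.ofFn D)), ?_⟩
  intro C hC j
  have hlen : (ty (0 : ZMod (c + 1)) (List.ofFn C)).length = l + c + 1 := by
    rw [ty_length, count_ofFn, hC]
  obtain ⟨t, ht, hj⟩ := hg _ hlen j
  obtain ⟨D, hD1, hD2, hD3⟩ := realise (List.ofFn C) 0 c t ht
  have hDlen : D.length = n := by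
    have := List.Forall₂.length_eq hD1
    rw [List.length_ofFn] at this
    exact this.symm
  subst hDlen
  refine ⟨D.get, ?_, ?_, ?_⟩
  · have h1 := count_ofFn D.get
    rw [List.ofFn_get] at h1
    rw [count_ofFn, hC] at hD2
    omega
  · intro i b hib
    have h2 := List.Forall₂.get hD1 (i := i.1) (by simp) i.2
    simp only [List.get_eq_getElem, List.getElem_ofFn] at h2
    exact h2 b hib
  · show g (ty 0 (List.ofFn D.get)) = j
    rw [List.ofFn_get, hD3]
    exact hj

end Pool.Agent.Helper635.Colour
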