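import Mathlib

set_option autoImplicit false
set_option linter.unusedSectionVars false

/-!
A graph `G` that is not 3-colourable and has linear minimum degree has only boundedly many
3-critical edges at each vertex.
-/

namespace Pool.Agent.Helper635.Crit

open Finset

variable {V : Type*} [Fintype V] [DecidableEq V]

/-- number of `x ∈ A` with `φ x w = a` -/
def cnt (φ : V → V → Fin 3) (A : Finset V) (w : V) (a : Fin 3) : ℕ :=
  (A.filter (fun x => φ x w = a)).card

lemma cnt_le_card (φ : V → V → Fin 3) (A : Finset V) (w : V) (a : Fin 3) :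
    cnt φ A w a ≤ A.card := Finset.card_filter_le _ _

lemma cnt_mono (φ : V → V → Fin 3) {A B : Finset V} (h : B ⊆ A) (w : V) (a : Fin 3) :
    cnt φ B w a ≤ cnt φ A w a := Finset.card_le_card (Finset.filter_subset_filter _ h)

lemma sum_cnt (φ : V → V → Fin 3) (A : Finset V) (w : V) :
    ∑ a : Fin 3, cnt φ A w a = A.card := by
  unfold cnt
  symm
  apply Finset.card_eq_sum_card_fiberwise
  intro x _
  exact Finset.mem_coe.2 (Finset.mem_univ _)

lemma sum_cnt3 (φ : V → V → Fin 3) (A : Finset V) (w : V) {a b c : Fin 3}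
    (hab : a ≠ b) (hac : a ≠ c) (hbc : b ≠ c) :
    cnt φ A w a + cnt φ A w b + cnt φ A w c = A.card := by
  rw [← sum_cnt φ A w]
  have : (Finset.univ : Finset (Fin 3)) = {a, b, c} := by
    revert a b c; decide
  rw [this, Finset.sum_insert, Finset.sum_insert, Finset.sum_singleton]
  · ring
  · simpa using hbc
  · simp [hab, hac]

open Classical in
/-- present pairs -/
noncomputable def pres (φ : V → V → Fin 3) (A : Finset V) (t : ℝ) : Finset (V × Fin 3) :=
  Finset.univ.filter (fun p => t * A.card ≤ cnt φ A p.1 p.2)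

section

variable (G : SimpleGraph V) (φ : V → V → Fin 3) (S : Finset V) (v : V)

/-- the colourings indexed by `x ∈ S` are proper apart from the edge `vx` -/
structure Fam : Prop where
  hv : ∀ x ∈ S, φ x v = 0
  hx : ∀ x ∈ S, φ x x = 0
  hadj : ∀ x ∈ S, G.Adj v x
  hprop : ∀ x ∈ S, ∀ w w', G.Adj w w' → φ x w = φ x w' → (w = v ∧ w' = x) ∨ (w = x ∧ w' = v)

variable {G φ S v}

lemma common (h : Fam G φ S v) {A : Finset V} (hA : A ⊆ S) {w z : V} (hwz : G.Adj w z)
    (a : Fin 3) : (A.filter (fun x => φ x w = a ∧ φ x z = a)).card ≤ 1 := by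
  rw [Finset.card_le_one]
  intro x hx y hy
  rw [Finset.mem_filter] at hx hy
  have h1 := h.hprop x (hA hx.1) w z hwz (hx.2.1.trans hx.2.2.symm)
  have h2 := h.hprop y (hA hy.1) w z hwz (hy.2.1.trans hy.2.2.symm)
  have hne : w ≠ z := hwz.ne
  rcases h1 with ⟨h1, h1'⟩ | ⟨h1, h1'⟩ <;> rcases h2 with ⟨h2, h2'⟩ | ⟨h2, h2'⟩
  · exact h1'.symm.trans h2'
  · exact absurd (h1.trans h2'.symm) hne
  · exact absurd (h2.trans h1'.symm) hne
  · exact h1.symm.trans h2

open Classical in
/-- the stopping property -/
def Stop (G : SimpleGraph V) (φ : V → V → Fin 3) (A : Finset V) (t ρ E : ℝ) : Prop :=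
  ∀ (w : V) (a : Fin 3), ρ * A.card ≤ cnt φ A w a →
    ((Finset.univ.filter (fun z => G.Adj w z ∧ t * A.card ≤ cnt φ A z a)).card : ℝ) < E

open Classical in
lemma refine_step (h : Fam G φ S v) (E ρ η : ℝ) (hE : 0 < E) (hρ : 0 < ρ) (hη : 0 < η) :
    ∀ (k : ℕ) (A : Finset V) (t : ℝ), A ⊆ S → 0 < t → 1 < t * A.card →
      ((pres φ A t).card : ℝ) ≤ k * E → t ≤ η * ρ ^ k → ρ ≤ 1 →
      ∃ (A' : Finset V) (t' : ℝ), A' ⊆ S ∧ 0 < t' ∧ t' ≤ η ∧ 1 < t' * A'.card ∧
        Stop G φ A' t' ρ E := by
  intro k
  induction k with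
  | zero =>
    intro A t hA ht h1 hP hη' hρ1
    refine ⟨A, t, hA, ht, by simpa using hη', h1, ?_⟩
    intro w a _
    have hP0 : (pres φ A t).card = 0 := by
      have : ((pres φ A t).card : ℝ) ≤ 0 := by simpa using hP
      exact_mod_cast le_antisymm this (Nat.cast_nonneg _)
    have : (Finset.univ.filter (fun z => G.Adj w z ∧ t * A.card ≤ cnt φ A z a)) = ∅ := by
      rw [Finset.card_eq_zero] at hP0
      rw [Finset.filter_eq_empty_iff]
      rintro z - ⟨-, hz⟩
      have : (z, a) ∈ pres φ A t := by
        rw [pres, Finset.mem_filter]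
        exact ⟨Finset.mem_univ _, hz⟩
      rw [hP0] at this
      simp at this
    rw [this]
    simpa using hE
  | succ k ih =>
    intro A t hA ht h1 hP hη' hρ1
    by_cases hstop : Stop G φ A t ρ E
    · refine ⟨A, t, hA, ht, ?_, h1, hstop⟩
      calc t ≤ η * ρ ^ (k + 1) := hη'
        _ ≤ η * 1 := by
            apply mul_le_mul_of_nonneg_left _ hη.le
            exact pow_le_one₀ hρ.le hρ1
        _ = η := mul_one _
    · rw [Stop] at hstop
      push Not at hstop
      obtain ⟨w, a, hwa, hE'⟩ := hstop
      set A' : Finset V := A.filter (fun x => φ x w = a) with hA'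
      have hA'A : A' ⊆ A := Finset.filter_subset _ _
      have hcard : (A'.card : ℝ) = cnt φ A w a := rfl
      have hcard' : ρ * A.card ≤ A'.card := by rw [hcard]; exact hwa
      have ht' : 0 < t / ρ := div_pos ht hρ
      have hmono : t * A.card ≤ t / ρ * A'.card := by
        rw [div_mul_eq_mul_div, le_div_iff₀ hρ]
        nlinarith
      apply ih A' (t / ρ) (hA'A.trans hA) ht' (lt_of_lt_of_le h1 hmono) _ _ hρ1
      · -- potential drops
        set D : Finset (V × Fin 3) :=
          (Finset.univ.filter (fun z => G.Adj w z ∧ t * A.card ≤ cnt φ A z a)).image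
            (fun z => (z, a)) with hD
        have hDcard : D.card =
            (Finset.univ.filter (fun z => G.Adj w z ∧ t * A.card ≤ cnt φ A z a)).card := by
          rw [hD]
          apply Finset.card_image_of_injective
          intro x y hxy
          exact (Prod.mk.inj hxy).1
        have hsub : pres φ A' (t / ρ) ⊆ pres φ A t := by
          intro p hp
          rw [pres, Finset.mem_filter] at hp ⊢
          refine ⟨Finset.mem_univ _, ?_⟩
          calc t * A.card ≤ t / ρ * A'.card := hmono
            _ ≤ cnt φ A' p.1 p.2 := hp.2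
            _ ≤ cnt φ A p.1 p.2 := by exact_mod_cast cnt_mono φ hA'A _ _
        have hDsub : D ⊆ pres φ A t := by
          intro p hp
          rw [hD, Finset.mem_image] at hp
          obtain ⟨z, hz, rfl⟩ := hp
          rw [Finset.mem_filter] at hz
          rw [pres, Finset.mem_filter]
          exact ⟨Finset.mem_univ _, hz.2.2⟩
        have hdisj : Disjoint (pres φ A' (t / ρ)) D := by
          rw [Finset.disjoint_left]
          intro p hp hpD
          rw [hD, Finset.mem_image] at hpD
          obtain ⟨z, hz, rfl⟩ := hpD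
          rw [Finset.mem_filter] at hz
          rw [pres, Finset.mem_filter] at hp
          have h2 : cnt φ A' z a ≤ 1 := by
            have := common h hA hz.2.1 a
            refine le_trans (le_of_eq ?_) this
            rw [cnt, hA', Finset.filter_filter]
          have h3 : (cnt φ A' z a : ℝ) ≤ 1 := by exact_mod_cast h2
          have h4 := hp.2
          simp only at h4
          linarith
        have hunion : (pres φ A' (t / ρ)).card + D.card ≤ (pres φ A t).card := by
          rw [← Finset.card_union_of_disjoint hdisj]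
          exact Finset.card_le_card (Finset.union_subset hsub hDsub)
        have hunion' : ((pres φ A' (t / ρ)).card : ℝ) + D.card ≤ (pres φ A t).card := by
          exact_mod_cast hunion
        rw [hDcard] at hunion'
        push_cast at hP
        linarith
      · rw [div_le_iff₀ hρ]
        calc t ≤ η * ρ ^ (k + 1) := hη'
          _ = η * ρ ^ k * ρ := by ring

/-- vertices whose colour in `φ x` is rare -/
noncomputable def X (φ : V → V → Fin 3) (A : Finset V) (t : ℝ) (x : V) : Finset V := by
  classical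
  exact Finset.univ.filter (fun z => (cnt φ A z (φ x z) : ℝ) < t * A.card)

lemma mem_X {φ : V → V → Fin 3} {A : Finset V} {t : ℝ} {x z : V} :
    z ∈ X φ A t x ↔ (cnt φ A z (φ x z) : ℝ) < t * A.card := by
  classical
  rw [X, Finset.mem_filter]
  simp

lemma sum_X (φ : V → V → Fin 3) (A : Finset V) (t : ℝ) (ht : 0 < t) :
    ∑ x ∈ A, ((X φ A t x).card : ℝ) ≤ 3 * t * A.card * Fintype.card V := by
  classical
  have h1 : ∑ x ∈ A, ((X φ A t x).card : ℝ) =
      ∑ z : V, ((A.filter (fun x => (cnt φ A z (φ x z) : ℝ) < t * A.card)).card : ℝ) := by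
    have h2 : ∀ x, ((X φ A t x).card : ℝ) =
        ∑ z : V, if (cnt φ A z (φ x z) : ℝ) < t * A.card then (1 : ℝ) else 0 := by
      intro x
      rw [Finset.sum_boole]
      congr 2
    have h3 : ∀ z, ((A.filter (fun x => (cnt φ A z (φ x z) : ℝ) < t * A.card)).card : ℝ) =
        ∑ x ∈ A, if (cnt φ A z (φ x z) : ℝ) < t * A.card then (1 : ℝ) else 0 := by
      intro z
      rw [Finset.sum_boole]
    simp only [h2, h3]
    exact Finset.sum_comm
  rw [h1]
  have h4 : ∀ z : V, ((A.filter (fun x => (cnt φ A z (φ x z) : ℝ) < t * A.card)).card : ℝ) ≤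
      3 * t * A.card := by
    intro z
    have h5 : (A.filter (fun x => (cnt φ A z (φ x z) : ℝ) < t * A.card)).card =
        ∑ a : Fin 3, ((A.filter (fun x => (cnt φ A z (φ x z) : ℝ) < t * A.card)).filter
          (fun x => φ x z = a)).card := by
      apply Finset.card_eq_sum_card_fiberwise
      intro x _
      exact Finset.mem_coe.2 (Finset.mem_univ _)
    rw [h5]
    push_cast
    have h6 : ∀ a : Fin 3, (((A.filter (fun x => (cnt φ A z (φ x z) : ℝ) < t * A.card)).filter
          (fun x => φ x z = a)).card : ℝ) ≤ t * A.card := by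
      intro a
      by_cases ha : (cnt φ A z a : ℝ) < t * A.card
      · refine le_trans ?_ ha.le
        have : (((A.filter (fun x => (cnt φ A z (φ x z) : ℝ) < t * A.card)).filter
          (fun x => φ x z = a)).card) ≤ cnt φ A z a := by
          apply Finset.card_le_card
          exact Finset.filter_subset_filter _ (Finset.filter_subset _ _)
        exact_mod_cast this
      · have : ((A.filter (fun x => (cnt φ A z (φ x z) : ℝ) < t * A.card)).filter
          (fun x => φ x z = a)) = ∅ := by
          rw [Finset.filter_eq_empty_iff]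
          intro x hx hxa
          rw [Finset.mem_filter, hxa] at hx
          exact ha hx.2
        rw [this]
        simp only [Finset.card_empty, Nat.cast_zero]
        positivity
    calc _ ≤ ∑ a : Fin 3, t * A.card := Finset.sum_le_sum (fun a _ => h6 a)
      _ = 3 * t * A.card := by
        rw [Finset.sum_const, Finset.card_univ, Fintype.card_fin, nsmul_eq_mul]
        push_cast
        ring
  calc _ ≤ ∑ z : V, 3 * t * A.card := Finset.sum_le_sum (fun z _ => h4 z)
    _ = 3 * t * A.card * Fintype.card V := by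
      rw [Finset.sum_const, Finset.card_univ, nsmul_eq_mul]
      ring

/-- the good members of the family -/
noncomputable def good (φ : V → V → Fin 3) (A : Finset V) (t : ℝ) : Finset V := by
  classical
  exact A.filter (fun x => ((X φ A t x).card : ℝ) < 6 * t * Fintype.card V)

lemma mem_good {φ : V → V → Fin 3} {A : Finset V} {t : ℝ} {x : V} :
    x ∈ good φ A t ↔ x ∈ A ∧ ((X φ A t x).card : ℝ) < 6 * t * Fintype.card V := by
  classical
  rw [good, Finset.mem_filter]

lemma card_good (φ : V → V → Fin 3) (A : Finset V) (t : ℝ) (ht : 0 < t) (hA : A.Nonempty) :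
    (A.card : ℝ) ≤ 2 * (good φ A t).card := by
  classical
  have hn : 0 < Fintype.card V := Fintype.card_pos_iff.2 ⟨hA.choose⟩
  have hn' : (0 : ℝ) < Fintype.card V := by exact_mod_cast hn
  have hsub : good φ A t ⊆ A := by
    intro x hx
    exact (mem_good.1 hx).1
  have h1 : ((A \ good φ A t).card : ℝ) * (6 * t * Fintype.card V) ≤
      ∑ x ∈ A, ((X φ A t x).card : ℝ) := by
    calc ((A \ good φ A t).card : ℝ) * (6 * t * Fintype.card V)
        = ∑ x ∈ A \ good φ A t, (6 * t * Fintype.card V) := by
          rw [Finset.sum_const, nsmul_eq_mul]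
      _ ≤ ∑ x ∈ A \ good φ A t, ((X φ A t x).card : ℝ) := by
          apply Finset.sum_le_sum
          intro x hx
          rw [Finset.mem_sdiff, mem_good] at hx
          by_contra hlt
          exact hx.2 ⟨hx.1, not_le.1 hlt⟩
      _ ≤ ∑ x ∈ A, ((X φ A t x).card : ℝ) := by
          apply Finset.sum_le_sum_of_subset_of_nonneg Finset.sdiff_subset
          intro i _ _
          exact Nat.cast_nonneg _
  have h2 := sum_X φ A t ht
  have h3 : ((A \ good φ A t).card : ℝ) * (2 * (3 * t * Fintype.card V)) ≤
      A.card * (3 * t * Fintype.card V) := by nlinarith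
  have h4 : (0 : ℝ) < 3 * t * Fintype.card V := by positivity
  have h5 : 2 * ((A \ good φ A t).card : ℝ) ≤ A.card := by
    by_contra hlt
    rw [not_le] at hlt
    nlinarith
  have h6 : ((A \ good φ A t).card : ℝ) + (good φ A t).card = A.card := by
    have := Finset.card_sdiff_add_card_eq_card hsub
    exact_mod_cast this
  linarith

/-- two common colours exclude the third one in good members -/
lemma two_common (h : Fam G φ S v) {A : Finset V} (hA : A ⊆ S) {c t : ℝ} (hc : 0 < c)
    (htc : t ≤ c / 24) (ht1 : 1 < t * A.card)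
    (hdeg : ∀ w : V, c * Fintype.card V ≤ (Nat.card (G.neighborSet w) : ℝ))
    (hstop : Stop G φ A t (1 / 16) (c * Fintype.card V / 8))
    {x : V} (hx : x ∈ good φ A t) (w : V) {a b d : Fin 3} (hab : a ≠ b) (had : a ≠ d)
    (hbd : b ≠ d) (ha : 1 / 16 * (A.card : ℝ) ≤ cnt φ A w a)
    (hb : 1 / 16 * (A.card : ℝ) ≤ cnt φ A w b) : φ x w ≠ d := by
  classical
  intro hxd
  rw [mem_good] at hx
  have hxS : x ∈ S := hA hx.1
  have h1 := hstop w a ha
  have h2 := hstop w b hb
  set N : Finset V := Finset.univ.filter (fun z => G.Adj w z) with hN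
  have hNcard : (N.card : ℝ) = Nat.card (G.neighborSet w) := by
    rw [hN, Nat.card_eq_fintype_card]
    congr 1
    rw [← Set.toFinset_card]
    congr 1
    ext z
    simp
  set M : Finset V := N.filter (fun z => φ x z = d) with hM
  have hsub : N ⊆ ((Finset.univ.filter (fun z => G.Adj w z ∧ t * A.card ≤ cnt φ A z a)) ∪
      (Finset.univ.filter (fun z => G.Adj w z ∧ t * A.card ≤ cnt φ A z b))) ∪
      (X φ A t x ∪ M) := by
    intro z hz
    have hz' : G.Adj w z := by simpa [hN] using hz
    simp only [Finset.mem_union, Finset.mem_filter, Finset.mem_univ, true_and, mem_X, hM]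
    by_cases hza : t * A.card ≤ cnt φ A z a
    · exact Or.inl (Or.inl ⟨hz', hza⟩)
    by_cases hzb : t * A.card ≤ cnt φ A z b
    · exact Or.inl (Or.inr ⟨hz', hzb⟩)
    rw [not_le] at hza hzb
    right
    have hcases : ∀ (a b d e : Fin 3), a ≠ b → a ≠ d → b ≠ d → e = a ∨ e = b ∨ e = d := by
      decide
    rcases hcases a b d (φ x z) hab had hbd with h3 | h3 | h3
    · left; rw [h3]; exact hza
    · left; rw [h3]; exact hzb
    · right; exact ⟨hz, h3⟩
  have hcard1 : N.card ≤
      ((Finset.univ.filter (fun z => G.Adj w z ∧ t * A.card ≤ cnt φ A z a)).card +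
      (Finset.univ.filter (fun z => G.Adj w z ∧ t * A.card ≤ cnt φ A z b)).card) +
      ((X φ A t x).card + M.card) := by
    refine (Finset.card_le_card hsub).trans ?_
    refine (Finset.card_union_le _ _).trans ?_
    exact Nat.add_le_add (Finset.card_union_le _ _) (Finset.card_union_le _ _)
  have hcard2 : (N.card : ℝ) ≤
      (((Finset.univ.filter (fun z => G.Adj w z ∧ t * A.card ≤ cnt φ A z a)).card : ℝ) +
      (Finset.univ.filter (fun z => G.Adj w z ∧ t * A.card ≤ cnt φ A z b)).card) +
      ((X φ A t x).card + M.card) := by exact_mod_cast hcard1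
  have hn : (A.card : ℝ) ≤ Fintype.card V := by exact_mod_cast Finset.card_le_univ A
  have hd := hdeg w
  have h6 : 6 * t * Fintype.card V ≤ c * Fintype.card V / 4 := by
    have : (0 : ℝ) ≤ Fintype.card V := Nat.cast_nonneg _
    nlinarith
  have h7 : (24 : ℝ) < c * Fintype.card V := by
    have h8 : t * A.card ≤ c / 24 * Fintype.card V :=
      mul_le_mul htc hn (Nat.cast_nonneg _) (by positivity)
    linarith
  have hMcard : (1 : ℝ) < M.card := by
    have h9 := hx.2
    rw [hNcard] at hcard2
    linarith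
  have hMcard' : 1 < M.card := by exact_mod_cast hMcard
  rw [Finset.one_lt_card] at hMcard'
  obtain ⟨z, hz, z', hz', hzz'⟩ := hMcard'
  rw [hM, Finset.mem_filter] at hz hz'
  have hz1 : G.Adj w z := by simpa [hN] using hz.1
  have hz1' : G.Adj w z' := by simpa [hN] using hz'.1
  have h10 := h.hprop x hxS w z hz1 (hxd.trans hz.2.symm)
  have h11 := h.hprop x hxS w z' hz1' (hxd.trans hz'.2.symm)
  have hvx : v ≠ x := (h.hadj x hxS).ne
  rcases h10 with ⟨e1, e2⟩ | ⟨e1, e2⟩ <;> rcases h11 with ⟨e3, e4⟩ | ⟨e3, e4⟩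
  · exact hzz' (e2.trans e4.symm)
  · exact hvx (e1.symm.trans e3)
  · exact hvx (e3.symm.trans e1)
  · exact hzz' (e2.trans e4.symm)

/-- the final contradiction -/
lemma final (h : Fam G φ S v) (hG : ∀ ψ : V → Fin 3, ∃ w w', G.Adj w w' ∧ ψ w = ψ w')
    {A : Finset V} (hA : A ⊆ S) {c t : ℝ} (hc : 0 < c) (hc1 : c ≤ 1)
    (ht : 0 < t) (htc : t ≤ c / 24) (ht1 : 1 < t * A.card)
    (hdeg : ∀ w : V, c * Fintype.card V ≤ (Nat.card (G.neighborSet w) : ℝ))
    (hstop : Stop G φ A t (1 / 16) (c * Fintype.card V / 8)) : False := by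
  classical
  have hA24 : (24 : ℝ) < A.card := by
    have h1 : t * A.card ≤ 1 / 24 * A.card := by
      apply mul_le_mul_of_nonneg_right _ (Nat.cast_nonneg _)
      linarith
    linarith
  have hAne : A.Nonempty := by
    rw [← Finset.card_pos]
    have : (0 : ℝ) < A.card := by linarith
    exact_mod_cast this
  set B : Finset V := good φ A t with hB
  have hBA : B ⊆ A := fun x hx => (mem_good.1 hx).1
  have hBcard : (A.card : ℝ) ≤ 2 * B.card := card_good φ A t ht hAne
  have hB12 : (12 : ℝ) < B.card := by linarith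
  have hBne : B.Nonempty := by
    rw [← Finset.card_pos]
    have : (0 : ℝ) < B.card := by linarith
    exact_mod_cast this
  obtain ⟨x₀, hx₀⟩ := hBne
  have hBS : B ⊆ S := hBA.trans hA
  have hx₀S : x₀ ∈ S := hBS hx₀
  have two : ∀ x ∈ B, ∀ (w : V) (a b d : Fin 3), a ≠ b → a ≠ d → b ≠ d →
      1 / 16 * (A.card : ℝ) ≤ cnt φ A w a → 1 / 16 * (A.card : ℝ) ≤ cnt φ A w b → φ x w ≠ d := by
    intro x hx w a b d hab had hbd ha hb
    exact two_common h hA hc htc ht1 hdeg hstop hx w hab had hbd ha hb
  -- rare colours stay rare in `B`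
  have rare : ∀ (w : V) (a : Fin 3), (cnt φ A w a : ℝ) < 1 / 16 * A.card →
      (cnt φ B w a : ℝ) ≤ 1 / 8 * B.card := by
    intro w a hw
    have h1 : (cnt φ B w a : ℝ) ≤ cnt φ A w a := by exact_mod_cast cnt_mono φ hBA w a
    linarith
  have sum3 : ∀ (w : V) (a b d : Fin 3), a ≠ b → a ≠ d → b ≠ d →
      (cnt φ B w a : ℝ) + cnt φ B w b + cnt φ B w d = B.card := by
    intro w a b d hab had hbd
    exact_mod_cast sum_cnt3 φ B w hab had hbd
  set high : V → Fin 3 → Prop := fun w a => 3 / 4 * (B.card : ℝ) ≤ cnt φ B w a with hhigh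
  -- `v` is high with colour 0
  have hv0 : cnt φ B v 0 = B.card := by
    rw [cnt, Finset.filter_true_of_mem]
    intro x hx
    exact h.hv x (hBS hx)
  have highv : high v 0 := by
    rw [hhigh]
    simp only
    rw [hv0]
    linarith
  -- two colours cannot both be high
  have uniq : ∀ (w : V) (a b : Fin 3), high w a → high w b → a = b := by
    intro w a b ha hb
    by_contra hab
    have third : ∀ a b : Fin 3, a ≠ b → ∃ d : Fin 3, a ≠ d ∧ b ≠ d := by decide
    obtain ⟨d, had, hbd⟩ := third a b hab
    have := sum3 w a b d hab had hbd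
    have h0 : (0 : ℝ) ≤ cnt φ B w d := Nat.cast_nonneg _
    simp only [hhigh] at ha hb
    linarith
  -- adjacent vertices are not high with the same colour
  have adjhigh : ∀ (w w' : V) (a : Fin 3), G.Adj w w' →
      (cnt φ B w a : ℝ) + cnt φ B w' a ≤ B.card + 1 := by
    intro w w' a hww'
    have h1 : (B.filter (fun x => φ x w = a)) ∩ (B.filter (fun x => φ x w' = a)) =
        B.filter (fun x => φ x w = a ∧ φ x w' = a) := by
      rw [Finset.filter_and]
    have h2 := common h hBS hww' a
    have h3 := Finset.card_union_add_card_inter (B.filter (fun x => φ x w = a))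
      (B.filter (fun x => φ x w' = a))
    rw [h1] at h3
    have h4 : ((B.filter (fun x => φ x w = a)) ∪ (B.filter (fun x => φ x w' = a))).card ≤
        B.card := Finset.card_le_card
          (Finset.union_subset (Finset.filter_subset _ _) (Finset.filter_subset _ _))
    have h5 : cnt φ B w a + cnt φ B w' a ≤ B.card + 1 := by
      unfold cnt
      omega
    exact_mod_cast h5
  -- neighbours of `v` rarely get colour 0
  have nv : ∀ w, G.Adj v w → (cnt φ B w 0 : ℝ) ≤ 1 := by
    intro w hvw
    have := adjhigh v w 0 hvw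
    rw [hv0] at this
    linarith
  -- `x₀` is high
  have highx : ∃ a, high x₀ a := by
    have hadj0 := h.hadj x₀ hx₀S
    have hc0 := nv x₀ hadj0
    have hs := sum3 x₀ 0 1 2 (by decide) (by decide) (by decide)
    by_cases h1 : 1 / 16 * (A.card : ℝ) ≤ cnt φ A x₀ 1
    · have h2 : (cnt φ A x₀ 2 : ℝ) < 1 / 16 * A.card := by
        by_contra h2
        rw [not_lt] at h2
        exact two x₀ hx₀ x₀ 1 2 0 (by decide) (by decide) (by decide) h1 h2 (h.hx x₀ hx₀S)
      have h3 := rare x₀ 2 h2
      refine ⟨1, ?_⟩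
      simp only [hhigh]
      linarith
    · rw [not_le] at h1
      have h3 := rare x₀ 1 h1
      refine ⟨2, ?_⟩
      simp only [hhigh]
      linarith
  -- propagation
  have prop : ∀ (w w' : V) (a : Fin 3), G.Adj w w' → w ≠ v → w' ≠ v → high w a →
      φ x₀ w' = a → ∃ b, high w' b := by
    intro w w' a hww' hw hw' ha hx
    have hnot : ∀ x ∈ B, φ x w = a → φ x w' ≠ a := by
      intro x hxB h1 h2
      rcases h.hprop x (hBS hxB) w w' hww' (h1.trans h2.symm) with ⟨e1, _⟩ | ⟨_, e2⟩
      · exact hw e1
      · exact hw' e2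
    have others : ∀ a : Fin 3, ∃ b d : Fin 3, a ≠ b ∧ a ≠ d ∧ b ≠ d := by decide
    obtain ⟨b, d, hab, had, hbd⟩ := others a
    have hcases : ∀ (a b d e : Fin 3), a ≠ b → a ≠ d → b ≠ d → e = a ∨ e = b ∨ e = d := by
      decide
    -- `a` is not high at `w'`
    have haw' : (cnt φ B w' a : ℝ) ≤ 1 / 4 * B.card + 1 := by
      have := adjhigh w w' a hww'
      simp only [hhigh] at ha
      linarith
    by_cases hd : ∃ x ∈ B, φ x w' = d
    · by_cases hb : ∃ x ∈ B, φ x w' = b
      · -- all three colours are used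
        obtain ⟨y, hy, hyd⟩ := hd
        obtain ⟨z, hz, hzb⟩ := hb
        have hs := sum3 w' a b d hab had hbd
        have n1 : ¬ (1 / 16 * (A.card : ℝ) ≤ cnt φ A w' a ∧
            1 / 16 * (A.card : ℝ) ≤ cnt φ A w' b) := by
          rintro ⟨h1, h2⟩
          exact two y hy w' a b d hab had hbd h1 h2 hyd
        have n2 : ¬ (1 / 16 * (A.card : ℝ) ≤ cnt φ A w' a ∧
            1 / 16 * (A.card : ℝ) ≤ cnt φ A w' d) := by
          rintro ⟨h1, h2⟩
          exact two z hz w' a d b had hab hbd.symm h1 h2 hzb
        have n3 : ¬ (1 / 16 * (A.card : ℝ) ≤ cnt φ A w' b ∧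
            1 / 16 * (A.card : ℝ) ≤ cnt φ A w' d) := by
          rintro ⟨h1, h2⟩
          exact two x₀ hx₀ w' b d a hbd hab.symm had.symm h1 h2 hx
        by_cases hA1 : 1 / 16 * (A.card : ℝ) ≤ cnt φ A w' a
        · have h2 : (cnt φ A w' b : ℝ) < 1 / 16 * A.card := by
            by_contra h2
            exact n1 ⟨hA1, not_lt.1 h2⟩
          have h3 : (cnt φ A w' d : ℝ) < 1 / 16 * A.card := by
            by_contra h3
            exact n2 ⟨hA1, not_lt.1 h3⟩
          have := rare w' b h2
          have := rare w' d h3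
          exfalso
          linarith
        · rw [not_le] at hA1
          have h1 := rare w' a hA1
          by_cases hA2 : 1 / 16 * (A.card : ℝ) ≤ cnt φ A w' b
          · have h3 : (cnt φ A w' d : ℝ) < 1 / 16 * A.card := by
              by_contra h3
              exact n3 ⟨hA2, not_lt.1 h3⟩
            have := rare w' d h3
            refine ⟨b, ?_⟩
            simp only [hhigh]
            linarith
          · rw [not_le] at hA2
            have := rare w' b hA2
            refine ⟨d, ?_⟩
            simp only [hhigh]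
            linarith
      · -- colour `b` is never used
        refine ⟨d, ?_⟩
        have hle : cnt φ B w a ≤ cnt φ B w' d := by
          apply Finset.card_le_card
          intro x hxB
          rw [Finset.mem_filter] at hxB ⊢
          refine ⟨hxB.1, ?_⟩
          rcases hcases a b d (φ x w') hab had hbd with e | e | e
          · exact absurd e (hnot x hxB.1 hxB.2)
          · exact absurd ⟨x, hxB.1, e⟩ hb
          · exact e
        have hle' : (cnt φ B w a : ℝ) ≤ cnt φ B w' d := by exact_mod_cast hle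
        simp only [hhigh] at ha ⊢
        linarith
    · -- colour `d` is never used
      refine ⟨b, ?_⟩
      have hle : cnt φ B w a ≤ cnt φ B w' b := by
        apply Finset.card_le_card
        intro x hxB
        rw [Finset.mem_filter] at hxB ⊢
        refine ⟨hxB.1, ?_⟩
        rcases hcases a b d (φ x w') hab had hbd with e | e | e
        · exact absurd e (hnot x hxB.1 hxB.2)
        · exact e
        · exact absurd ⟨x, hxB.1, e⟩ hd
      have hle' : (cnt φ B w a : ℝ) ≤ cnt φ B w' b := by exact_mod_cast hle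
      simp only [hhigh] at ha ⊢
      linarith
  -- the new colouring
  let ψ : V → Fin 3 := fun w => if hw : ∃ a, high w a then hw.choose else φ x₀ w
  have hψ1 : ∀ w a, high w a → ψ w = a := by
    intro w a ha
    have hw : ∃ a, high w a := ⟨a, ha⟩
    have : ψ w = hw.choose := dif_pos hw
    rw [this]
    exact uniq w _ _ hw.choose_spec ha
  have hψ2 : ∀ w, ¬ (∃ a, high w a) → ψ w = φ x₀ w := by
    intro w hw
    exact dif_neg hw
  -- one endpoint high, the other one not
  have mixed : ∀ w w' a, G.Adj w w' → high w a → ¬ (∃ b, high w' b) → φ x₀ w' ≠ a := by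
    intro w w' a hww' ha hn hx
    have hw'v : w' ≠ v := by
      rintro rfl
      exact hn ⟨0, highv⟩
    by_cases hwv : w = v
    · subst hwv
      have ha0 : a = 0 := uniq w a 0 ha highv
      subst ha0
      rcases h.hprop x₀ hx₀S w w' hww' ((h.hv x₀ hx₀S).trans hx.symm) with ⟨_, e⟩ | ⟨_, e⟩
      · subst e
        exact hn highx
      · exact hw'v e
    · exact hn (prop w w' a hww' hwv hw'v ha hx)
  obtain ⟨w, w', hww', heq⟩ := hG ψ
  by_cases hw : ∃ a, high w a
  · obtain ⟨a, ha⟩ := hw
    by_cases hw' : ∃ a, high w' a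
    · obtain ⟨b, hb⟩ := hw'
      rw [hψ1 w a ha, hψ1 w' b hb] at heq
      subst heq
      have := adjhigh w w' a hww'
      simp only [hhigh] at ha hb
      linarith
    · rw [hψ1 w a ha, hψ2 w' hw'] at heq
      exact mixed w w' a hww' ha hw' heq.symm
  · by_cases hw' : ∃ a, high w' a
    · obtain ⟨b, hb⟩ := hw'
      rw [hψ2 w hw, hψ1 w' b hb] at heq
      exact mixed w' w b hww'.symm hb hw heq
    · rw [hψ2 w hw, hψ2 w' hw'] at heq
      rcases h.hprop x₀ hx₀S w w' hww' heq with ⟨e, _⟩ | ⟨_, e⟩
      · subst e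
        exact hw ⟨0, highv⟩
      · subst e
        exact hw' ⟨0, highv⟩

/-- A graph on `n` vertices with minimum degree at least `c n` that is not 3-colourable: the number
of critical edges at a vertex is at most `(24 / c) * 16 ^ k` for any `k ≥ 24 / c`. -/
theorem main_bound (h : Fam G φ S v) (hG : ∀ ψ : V → Fin 3, ∃ w w', G.Adj w w' ∧ ψ w = ψ w')
    {c : ℝ} (hc : 0 < c) (hc1 : c ≤ 1)
    (hdeg : ∀ w : V, c * Fintype.card V ≤ (Nat.card (G.neighborSet w) : ℝ))
    (k : ℕ) (hk : 24 / c ≤ k) : (S.card : ℝ) ≤ 24 / c * 16 ^ k := by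
  by_contra hlt
  rw [not_le] at hlt
  have hn : 0 < Fintype.card V := Fintype.card_pos_iff.2 ⟨v⟩
  have hn' : (0 : ℝ) < Fintype.card V := by exact_mod_cast hn
  have ht : (0 : ℝ) < c / 24 * (1 / 16) ^ k := by positivity
  have h1 : 1 < c / 24 * (1 / 16) ^ k * S.card := by
    have h2 : c / 24 * (1 / 16) ^ k * (24 / c * 16 ^ k) = 1 := by
      rw [one_div, inv_pow]
      field_simp
    calc (1 : ℝ) = c / 24 * (1 / 16) ^ k * (24 / c * 16 ^ k) := h2.symm
      _ < _ := mul_lt_mul_of_pos_left hlt ht
  have hP : ((pres φ S (c / 24 * (1 / 16) ^ k)).card : ℝ) ≤ k * (c * Fintype.card V / 8) := by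
    have h2 : (pres φ S (c / 24 * (1 / 16) ^ k)).card ≤ Fintype.card V * 3 := by
      refine (Finset.card_le_univ _).trans ?_
      simp [Fintype.card_prod]
    have h3 : ((pres φ S (c / 24 * (1 / 16) ^ k)).card : ℝ) ≤ Fintype.card V * 3 := by
      exact_mod_cast h2
    have h4 : 24 ≤ k * c := by
      rwa [div_le_iff₀ hc] at hk
    nlinarith
  obtain ⟨A, t, hA, ht0, htc, ht1, hstop⟩ := refine_step h (c * Fintype.card V / 8) (1 / 16)
    (c / 24) (by positivity) (by norm_num) (by positivity) k S (c / 24 * (1 / 16) ^ k)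
    (Finset.Subset.refl _) ht h1 hP le_rfl (by norm_num)
  exact final h hG hA hc hc1 ht0 htc ht1 hdeg hstop

end

end Pool.Agent.Helper635.Crit
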